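import Pool.Agent.Y234.GS.StmB

/-!
# Project GS, job CART: the Cartier operator argument
-/

set_option autoImplicit false

namespace Pool.Agent.Y781.GS

open MvPolynomial Pool.Agent.Y234.GS

/-! ## The Cartier operator on polynomials -/

/-- The exponent `(q - 1, ..., q - 1)`. -/
noncomputable def om (D q : ℕ) : Fin D →₀ ℕ := Finsupp.equivFunOnFinite.symm (fun _ => q - 1)

@[simp] lemma om_apply (D q : ℕ) (i : Fin D) : om D q i = q - 1 := rfl

/-- `T (∑ κ_b Z^b) = ∑ κ_(q a + q - 1) Z^(q a)`. -/
noncomputable def TT {R : Type} [CommRing R] (D q : ℕ) :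
    MvPolynomial (Fin D) R →ₗ[R] MvPolynomial (Fin D) R :=
  (basisMonomials (Fin D) R).constr R
    (fun b => if ∀ i, q ∣ b i + 1 then monomial (b - om D q) 1 else 0)

lemma TT_monomial {R : Type} [CommRing R] (D q : ℕ) (b : Fin D →₀ ℕ) (r : R) :
    TT D q (monomial b r) = if ∀ i, q ∣ b i + 1 then monomial (b - om D q) r else 0 := by
  have h1 : (monomial b r : MvPolynomial (Fin D) R) = r • basisMonomials (Fin D) R b := by
    rw [coe_basisMonomials, smul_monomial, smul_eq_mul, mul_one]
  rw [h1, map_smul, TT, Module.Basis.constr_basis]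
  split_ifs with h
  · rw [smul_monomial, smul_eq_mul, mul_one]
  · rw [smul_zero]

lemma sub_add_om (D q : ℕ) (hq : 0 < q) (b : Fin D →₀ ℕ) (h : ∀ i, q ∣ b i + 1) :
    b - om D q + om D q = b := by
  ext i
  simp only [Finsupp.coe_add, Finsupp.coe_tsub, Pi.add_apply, Pi.sub_apply, om_apply]
  have := Nat.le_of_dvd (Nat.succ_pos _) (h i)
  omega

lemma TT_mul_monomial {R : Type} [CommRing R] (D q : ℕ) (hq : 0 < q) (a : Fin D →₀ ℕ) (s : R)
    (P : MvPolynomial (Fin D) R) :
    TT D q (monomial (q • a) s * P) = monomial (q • a) s * TT D q P := by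
  induction P using MvPolynomial.induction_on' with
  | monomial b r =>
    rw [monomial_mul, TT_monomial, TT_monomial]
    have hc : (∀ i, q ∣ (q • a + b) i + 1) ↔ ∀ i, q ∣ b i + 1 := by
      refine forall_congr' fun i => ?_
      simp only [Finsupp.coe_add, Finsupp.coe_smul, Pi.add_apply, Pi.smul_apply, smul_eq_mul]
      rw [add_assoc]
      exact (Nat.dvd_add_iff_right (Dvd.intro _ rfl)).symm
    by_cases h : ∀ i, q ∣ b i + 1
    · rw [if_pos h, if_pos (hc.mpr h), monomial_mul]
      congr 2
      ext i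
      simp only [Finsupp.coe_add, Finsupp.coe_smul, Finsupp.coe_tsub, Pi.add_apply, Pi.smul_apply,
        Pi.sub_apply, smul_eq_mul, om_apply]
      have := Nat.le_of_dvd (Nat.succ_pos _) (h i)
      omega
    · rw [if_neg h, if_neg (fun h' => h (hc.mp h')), mul_zero]
  | add P Q hP hQ =>
    rw [mul_add, map_add, map_add, mul_add, hP, hQ]

lemma pow_add_char {R : Type} [CommRing R] (p e : ℕ) (hp : p.Prime) [CharP R p] (x y : R) :
    (x + y) ^ p ^ e = x ^ p ^ e + y ^ p ^ e := by
  have := Fact.mk hp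
  exact add_pow_char_pow x y p e

lemma TT_pow_mul {R : Type} [CommRing R] (D p e : ℕ) (hp : p.Prime) [CharP R p]
    (P Q : MvPolynomial (Fin D) R) :
    TT D (p ^ e) (P ^ p ^ e * Q) = P ^ p ^ e * TT D (p ^ e) Q := by
  have hq : 0 < p ^ e := pow_pos hp.pos e
  have : CharP (MvPolynomial (Fin D) R) p := inferInstance
  induction P using MvPolynomial.induction_on' with
  | monomial b r =>
    rw [monomial_pow, TT_mul_monomial D _ hq]
  | add P1 P2 h1 h2 =>
    rw [pow_add_char p e hp, add_mul, map_add, add_mul, h1, h2]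

lemma TT_map {R S : Type} [CommRing R] [CommRing S] (f : R →+* S) (D q : ℕ)
    (P : MvPolynomial (Fin D) R) : TT D q (map f P) = map f (TT D q P) := by
  induction P using MvPolynomial.induction_on' with
  | monomial b r =>
    rw [map_monomial, TT_monomial, TT_monomial]
    split_ifs with h
    · rw [map_monomial]
    · rw [map_zero]
  | add P1 P2 h1 h2 =>
    rw [map_add, map_add, map_add, map_add, h1, h2]

lemma coeff_TT {R : Type} [CommRing R] (D q : ℕ) (hq : 0 < q) (P : MvPolynomial (Fin D) R)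
    (m : Fin D →₀ ℕ) :
    coeff m (TT D q P) = if ∀ i, q ∣ m i then coeff (m + om D q) P else 0 := by
  classical
  induction P using MvPolynomial.induction_on' with
  | monomial b r =>
    rw [TT_monomial]
    by_cases h : ∀ i, q ∣ b i + 1
    · rw [if_pos h, coeff_monomial, coeff_monomial]
      have e1 : b - om D q = m ↔ b = m + om D q := by
        constructor
        · intro h'
          rw [← h', sub_add_om D q hq b h]
        · intro h'
          rw [h']
          ext i
          simp
      by_cases h2 : b = m + om D q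
      · have h3 : ∀ i, q ∣ m i := by
          intro i
          have h4 := h i
          rw [h2] at h4
          simp only [Finsupp.coe_add, Pi.add_apply, om_apply] at h4
          have h5 : m i + (q - 1) + 1 = m i + q := by omega
          rw [h5] at h4
          exact (Nat.dvd_add_left (dvd_refl q)).mp h4
        rw [if_pos (e1.mpr h2), if_pos h3, if_pos h2]
      · rw [if_neg (fun h' => h2 (e1.mp h')), if_neg h2]
        split_ifs <;> rfl
    · rw [if_neg h, coeff_zero, coeff_monomial]
      split_ifs with h1 h2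
      · exfalso
        apply h
        intro i
        rw [h2]
        simp only [Finsupp.coe_add, Pi.add_apply, om_apply]
        have h5 : m i + (q - 1) + 1 = m i + q := by omega
        rw [h5]
        exact Dvd.dvd.add (h1 i) (dvd_refl q)
      · rfl
      · rfl
  | add P1 P2 h1 h2 =>
    rw [map_add, coeff_add, h1, h2]
    split_ifs
    · rw [coeff_add]
    · rw [add_zero]

lemma coeff_pow_char {R : Type} [CommRing R] (D p e : ℕ) (hp : p.Prime) [CharP R p]
    (P : MvPolynomial (Fin D) R) (m : Fin D →₀ ℕ) :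
    coeff m (P ^ p ^ e) = if ∀ i, p ^ e ∣ m i then
      (coeff (Finsupp.equivFunOnFinite.symm (fun i => m i / p ^ e)) P) ^ p ^ e else 0 := by
  classical
  have hq : 0 < p ^ e := pow_pos hp.pos e
  have : CharP (MvPolynomial (Fin D) R) p := inferInstance
  induction P using MvPolynomial.induction_on' with
  | monomial b r =>
    rw [monomial_pow, coeff_monomial, coeff_monomial]
    by_cases h : p ^ e • b = m
    · have h3 : ∀ i, p ^ e ∣ m i := by
        intro i
        rw [← h]
        exact Dvd.intro _ rfl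
      have h4 : b = Finsupp.equivFunOnFinite.symm (fun i => m i / p ^ e) := by
        ext i
        rw [← h]
        simp [Nat.mul_div_cancel_left _ hq]
      rw [if_pos h, if_pos h3, if_pos h4]
    · rw [if_neg h]
      split_ifs with h1 h2
      · exfalso
        apply h
        ext i
        rw [h2]
        simp [Nat.mul_div_cancel' (h1 i)]
      · rw [zero_pow hq.ne']
      · rfl
  | add P1 P2 h1 h2 =>
    rw [pow_add_char p e hp, coeff_add, h1, h2]
    split_ifs
    · rw [coeff_add, pow_add_char p e hp]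
    · rw [add_zero]

lemma TT_eq_pow {R : Type} [CommRing R] (D p e : ℕ) (hp : p.Prime) [CharP R p]
    (c Q : MvPolynomial (Fin D) R)
    (h : ∀ a : Fin D →₀ ℕ, coeff (p ^ e • a + om D (p ^ e)) Q = (coeff a c) ^ p ^ e) :
    TT D (p ^ e) Q = c ^ p ^ e := by
  have hq : 0 < p ^ e := pow_pos hp.pos e
  ext m
  rw [coeff_TT D _ hq, coeff_pow_char D p e hp]
  split_ifs with h1
  · rw [← h]
    congr 2
    ext i
    simp [Nat.mul_div_cancel' (h1 i)]
  · rfl

/-! ## Coefficients given by functions -/

/-- The polynomial with the given coefficients. -/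
noncomputable def pol {R : Type} [CommRing R] {D : ℕ} (c : (Fin D → ℕ) →₀ R) :
    MvPolynomial (Fin D) R :=
  c.sum fun a r => monomial (Finsupp.equivFunOnFinite.symm a) r

lemma coeff_pol {R : Type} [CommRing R] {D : ℕ} (c : (Fin D → ℕ) →₀ R) (m : Fin D →₀ ℕ) :
    coeff m (pol c) = c m := by
  classical
  rw [pol, Finsupp.sum, coeff_sum]
  simp_rw [coeff_monomial]
  rw [Finset.sum_eq_single (m : Fin D → ℕ)]
  · rw [if_pos]
    ext i
    rfl
  · intro b _ hb
    rw [if_neg]
    intro h
    apply hb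
    rw [← h]
    rfl
  · intro h
    rw [Finsupp.notMem_support_iff.mp h]
    split_ifs <;> rfl

lemma aeval_pol {R A : Type} [CommRing R] [CommRing A] [Algebra R A] {D : ℕ} (ψ : Fin D → A)
    (c : (Fin D → ℕ) →₀ R) : aeval ψ (pol c) = c.sum (fun a r => r • mon ψ a) := by
  rw [pol, Finsupp.sum, map_sum, Finsupp.sum]
  refine Finset.sum_congr rfl fun a _ => ?_
  rw [aeval_monomial, Algebra.smul_def, mon, Finsupp.prod_fintype]
  · rfl
  · intro i
    rw [pow_zero]

section main

variable {k1 L1 ι : Type} [Field k1] [Field L1] [Algebra k1 L1] [Fintype ι]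

omit [Fintype ι] in
lemma prod_mem (X : ι → L1) (b : ι → ℕ) (s : Finset ι) :
    ∏ i ∈ s, X i ^ b i ∈ (VV k1 X) ^ (∑ i ∈ s, b i) := by
  classical
  induction s using Finset.induction_on with
  | empty =>
    rw [Finset.prod_empty, Finset.sum_empty, pow_zero]
    exact Submodule.one_le.mp le_rfl
  | insert i s hi ih =>
    rw [Finset.prod_insert hi, Finset.sum_insert hi, pow_add]
    exact Submodule.mul_mem_mul
      (Submodule.pow_mem_pow _ (Submodule.subset_span (Set.mem_range_self i)) _) ih

lemma aeval_monomial_mem (X : ι → L1) (b : ι →₀ ℕ) (r : k1) :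
    aeval X (monomial b r) ∈ (VV k1 X) ^ (∑ i, b i) := by
  rw [aeval_monomial, ← Algebra.smul_def, Finsupp.prod_fintype]
  · exact Submodule.smul_mem _ _ (prod_mem X b Finset.univ)
  · intro i
    rw [pow_zero]

lemma map_aeval_mul {D : ℕ} (ψ : Fin D → L1) (φ : L1 →ₗ[k1] L1)
    (hφ : ∀ l z, φ (ψ l * z) = ψ l * φ z) (P : MvPolynomial (Fin D) k1) (z : L1) :
    φ (aeval ψ P * z) = aeval ψ P * φ z := by
  induction P using MvPolynomial.induction_on generalizing z with
  | C a =>
    rw [aeval_C, ← Algebra.smul_def, ← Algebra.smul_def, map_smul]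
  | add P Q hP hQ =>
    rw [map_add, add_mul, map_add, hP, hQ, add_mul]
  | mul_X P l hP =>
    have h1 : aeval ψ (P * MvPolynomial.X l) = aeval ψ P * ψ l := by rw [map_mul, aeval_X]
    rw [h1, mul_assoc, hP, hφ, mul_assoc]

omit [Fintype ι] in
lemma psi_mem_adjoin {D : ℕ} (X : ι → L1) (ψ : Fin D → L1) (hψ : ∀ l, ψ l ∈ VV k1 X)
    (P : MvPolynomial (Fin D) k1) : aeval ψ P ∈ Algebra.adjoin k1 (Set.range X) := by
  have h1 : aeval ψ P ∈ Algebra.adjoin k1 (Set.range ψ) := by
    rw [Algebra.adjoin_range_eq_range_aeval]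
    exact ⟨P, rfl⟩
  refine Algebra.adjoin_le ?_ h1
  rintro _ ⟨l, rfl⟩
  exact Algebra.span_le_adjoin k1 _ (hψ l)

lemma exists_mult {D : ℕ} (X : ι → L1) (ψ : Fin D → L1) (hM : Model k1 X)
    (hψ : ∀ l, ψ l ∈ VV k1 X) (hc : Cover (VV k1 X) ψ) (σ : L1) : ∃ (d : MvPolynomial (Fin D) k1) (G : MvPolynomial ι k1), d ≠ 0 ∧
      aeval ψ d * σ = aeval X G := by
  let _ : Algebra (MvPolynomial (Fin D) k1) L1 :=
    (aeval ψ : MvPolynomial (Fin D) k1 →ₐ[k1] L1).toRingHom.toAlgebra
  have hmap : ∀ P : MvPolynomial (Fin D) k1, algebraMap (MvPolynomial (Fin D) k1) L1 P = aeval ψ P :=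
    fun P => rfl
  have tow : IsScalarTower k1 (MvPolynomial (Fin D) k1) L1 := by
    refine IsScalarTower.of_algebraMap_eq fun r => ?_
    rw [hmap, MvPolynomial.algebraMap_eq, aeval_C]
  obtain ⟨N, hN⟩ := hc
  set V : Submodule k1 L1 := VV k1 X with hV
  have hVfg : V.FG := Submodule.fg_span (Set.finite_range X)
  set M : Submodule (MvPolynomial (Fin D) k1) L1 :=
    ⨆ e ∈ Finset.range (N + 1), Submodule.span (MvPolynomial (Fin D) k1) ((V ^ e : Submodule k1 L1) : Set L1)
    with hMdef
  have hMfg : M.FG := by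
    refine Submodule.fg_biSup _ _ fun e _ => ?_
    obtain ⟨t, ht⟩ := hVfg.pow e
    rw [← ht, Submodule.span_span_of_tower]
    exact Submodule.fg_span t.finite_toSet
  have hmem : ∀ e ≤ N, ∀ w ∈ V ^ e, w ∈ M := by
    intro e he w hw
    have h1 : Submodule.span (MvPolynomial (Fin D) k1) ((V ^ e : Submodule k1 L1) : Set L1) ≤ M :=
      le_iSup₂_of_le e (Finset.mem_range.mpr (by omega)) le_rfl
    exact h1 (Submodule.subset_span hw)
  have hMne : M ≠ ⊥ := by
    intro h
    have h1 : (1 : L1) ∈ M := hmem 0 (Nat.zero_le _) 1 (by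
      rw [pow_zero]
      exact Submodule.one_le.mp le_rfl)
    rw [h, Submodule.mem_bot] at h1
    exact one_ne_zero h1
  have hint : ∀ x ∈ V, IsIntegral (MvPolynomial (Fin D) k1) x := by
    intro x hx
    refine isIntegral_of_smul_mem_submodule M hMne hMfg x ?_
    have h1 : M ≤ M.comap (LinearMap.mulLeft (MvPolynomial (Fin D) k1) x) := by
      refine iSup₂_le fun e he => ?_
      rw [Submodule.span_le]
      intro w hw
      rw [SetLike.mem_coe, Submodule.mem_comap, LinearMap.mulLeft_apply]
      have he' : e ≤ N := by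
        have := Finset.mem_range.mp he
        omega
      have hxw : x * w ∈ V ^ (e + 1) := by
        rw [pow_succ']
        exact Submodule.mul_mem_mul hx hw
      rcases Nat.lt_or_ge e N with h | h
      · exact hmem (e + 1) (by omega) _ hxw
      · have heN : e = N := le_antisymm he' h
        subst heN
        obtain ⟨r, hr, hr2⟩ := hN _ hxw
        rw [hr2]
        refine Submodule.sum_mem _ fun l _ => ?_
        have h2 : ψ l * r l = (MvPolynomial.X l : MvPolynomial (Fin D) k1) • r l := by
          rw [Algebra.smul_def, hmap, aeval_X]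
        rw [h2]
        exact Submodule.smul_mem _ _ (hmem e le_rfl _ (hr l))
    intro n hn
    exact h1 hn
  have hint2 : ∀ x ∈ Algebra.adjoin k1 (Set.range X), IsIntegral (MvPolynomial (Fin D) k1) x := by
    intro x hx
    induction hx using Algebra.adjoin_induction with
    | mem x hx => exact hint x (Submodule.subset_span hx)
    | algebraMap r =>
      rw [IsScalarTower.algebraMap_apply k1 (MvPolynomial (Fin D) k1) L1]
      exact isIntegral_algebraMap
    | add x y _ _ h1 h2 => exact h1.add h2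
    | mul x y _ _ h1 h2 => exact h1.mul h2
  have hA : ∀ G : MvPolynomial ι k1, aeval X G ∈ Algebra.adjoin k1 (Set.range X) := by
    intro G
    rw [Algebra.adjoin_range_eq_range_aeval]
    exact ⟨G, rfl⟩
  obtain ⟨G, H, hH, hGH⟩ := hM.gen σ
  have halgH : IsAlgebraic (MvPolynomial (Fin D) k1) (aeval X H) := (hint2 _ (hA H)).isAlgebraic
  obtain ⟨t, ht, r, hr, hr2⟩ := halgH.exists_nonzero_eq_adjoin_mul (mem_nonZeroDivisors_of_ne_zero hH)
  have ht3 : ∀ t ∈ Algebra.adjoin (MvPolynomial (Fin D) k1) {aeval X H},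
      t ∈ Algebra.adjoin k1 (Set.range X) := by
    intro t ht
    induction ht using Algebra.adjoin_induction with
    | mem x hx =>
      rw [Set.mem_singleton_iff.mp hx]
      exact hA H
    | algebraMap r =>
      rw [hmap]
      exact psi_mem_adjoin X ψ hψ r
    | add x y _ _ h1 h2 => exact add_mem h1 h2
    | mul x y _ _ h1 h2 => exact mul_mem h1 h2
  have ht2 := ht3 t ht
  have h3 : aeval ψ r * σ ∈ Algebra.adjoin k1 (Set.range X) := by
    rw [← hmap, ← hr2, mul_comm, ← mul_assoc, hGH]
    exact mul_mem (hA G) ht2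
  rw [Algebra.adjoin_range_eq_range_aeval] at h3
  obtain ⟨G', hG'⟩ := h3
  exact ⟨r, G', hr, hG'.symm⟩

/-- common denominators -/
lemma exists_denom {O σ : Type} [CommRing O] [IsDomain O] [Algebra O k1] [IsFractionRing O k1]
    (P : MvPolynomial σ k1) : ∃ (u : O) (P0 : MvPolynomial σ O), u ≠ 0 ∧
      map (algebraMap O k1) P0 = C (algebraMap O k1 u) * P := by
  induction P using MvPolynomial.induction_on' with
  | monomial b r =>
    obtain ⟨a, u, hu, hau⟩ := IsFractionRing.div_surjective (A := O) r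
    refine ⟨u, monomial b a, nonZeroDivisors.ne_zero hu, ?_⟩
    have hu0 : algebraMap O k1 u ≠ 0 := by
      intro h
      exact nonZeroDivisors.ne_zero hu
        ((map_eq_zero_iff _ (IsFractionRing.injective O k1)).mp h)
    rw [map_monomial, C_mul_monomial, ← hau]
    congr 1
    field_simp
  | add P Q hP hQ =>
    obtain ⟨u, P0, hu, hP0⟩ := hP
    obtain ⟨v, Q0, hv, hQ0⟩ := hQ
    refine ⟨u * v, C v * P0 + C u * Q0, mul_ne_zero hu hv, ?_⟩
    rw [map_add, map_mul, map_mul, map_C, map_C, hP0, hQ0, map_mul, C_mul]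
    ring

end main

theorem cart : S_CART := by
  intro O k1 L1 ι _ _ _ _ _ _ _ _ _ _ _ p e t X D ψ φ' Φ' hp hchar ht hM hψ halg hc hφ hΦ hexp
    σ hσ
  classical
  set q : ℕ := p ^ e with hq
  have hq0 : 0 < q := pow_pos hp.pos e
  have hinjOk : Function.Injective (algebraMap O k1) := IsFractionRing.injective O k1
  have hinjkL : Function.Injective (algebraMap k1 L1) := (algebraMap k1 L1).injective
  have charL : CharP L1 p := charP_of_injective_algebraMap hinjkL p
  have hinjm : Function.Injective (map (algebraMap O k1) : MvPolynomial (Fin D) O → _) :=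
    map_injective _ hinjOk
  -- the property for all elements of the coordinate ring
  have hPP : ∀ G : MvPolynomial ι k1, ∃ c Q : MvPolynomial (Fin D) k1,
      φ' (aeval X G) = aeval ψ c ∧ Φ' ((aeval X G) ^ q) = aeval ψ Q ∧
      ∀ a : Fin D →₀ ℕ, coeff (q • a + om D q) Q = (coeff a c) ^ q := by
    intro G
    induction G using MvPolynomial.induction_on' with
    | monomial b r =>
      obtain ⟨c, Q, h1, h2, h3⟩ := hexp _ _ (aeval_monomial_mem X b r)
      refine ⟨pol c, pol Q, ?_, ?_, ?_⟩
      · rw [h1, aeval_pol]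
      · rw [h2, aeval_pol]
      · intro a
        rw [coeff_pol, coeff_pol, ← h3 a]
        rfl
    | add G1 G2 h1 h2 =>
      obtain ⟨c1, Q1, a1, a2, a3⟩ := h1
      obtain ⟨c2, Q2, b1, b2, b3⟩ := h2
      refine ⟨c1 + c2, Q1 + Q2, ?_, ?_, ?_⟩
      · rw [map_add, map_add, map_add, a1, b1]
      · rw [map_add, hq, pow_add_char p e hp, ← hq, map_add, map_add, a2, b2]
      · intro a
        rw [coeff_add, coeff_add, hq, pow_add_char p e hp, ← hq, a3, b3]
  obtain ⟨d, G, hd, hdG⟩ := exists_mult X ψ hM hψ hc σ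
  obtain ⟨c, Q, hc1, hQ1, hcQ⟩ := hPP G
  have e1 : aeval ψ d * φ' σ = aeval ψ c := by
    rw [← hc1, ← hdG, map_aeval_mul ψ φ' hφ]
  have e2 : aeval ψ d ^ q * Φ' (σ ^ q) = aeval ψ Q := by
    rw [← hQ1, ← hdG, mul_pow, ← map_pow, map_aeval_mul ψ Φ' hΦ, map_pow]
  obtain ⟨F, N, hF, hFN⟩ := hσ
  have hmapO : ∀ P : MvPolynomial (Fin D) O, aeval ψ P = aeval ψ (map (algebraMap O k1) P) := by
    intro P
    rw [aeval_map_algebraMap]
  -- identity of polynomials over `k1`
  have e3 : Q * map (algebraMap O k1) F = d ^ q * map (algebraMap O k1) (C t * N) := by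
    apply halg
    rw [map_mul, map_mul, map_pow, ← hmapO, ← hmapO, ← hFN, ← e2]
    ring
  set N' : MvPolynomial (Fin D) O := TT D q (N * F ^ (q - 1)) with hN'
  have e4 : (c * map (algebraMap O k1) F) ^ q = d ^ q * map (algebraMap O k1) (C t * N') := by
    have h1 : map (algebraMap O k1) F ^ q * Q =
        d ^ q * map (algebraMap O k1) (C t * (N * F ^ (q - 1))) := by
      have h2 : map (algebraMap O k1) F ^ q =
          map (algebraMap O k1) F * map (algebraMap O k1) F ^ (q - 1) := by
        rw [← pow_succ']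
        congr 1
        omega
      rw [h2]
      calc _ = (Q * map (algebraMap O k1) F) * map (algebraMap O k1) F ^ (q - 1) := by ring
        _ = _ := by
          rw [e3, map_mul, map_mul, map_mul, map_pow]
          ring
    have h2 := congrArg (TT D q) h1
    rw [hq, TT_pow_mul D p e hp, TT_pow_mul D p e hp, TT_eq_pow D p e hp c Q hcQ, ← hq,
      TT_map, ← smul_eq_C_mul, map_smul, smul_eq_C_mul, ← hN'] at h2
    rw [mul_pow, mul_comm, h2]
  -- denominators
  obtain ⟨u1, A1, hu1, hA1⟩ := exists_denom (O := O) (c * map (algebraMap O k1) F)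
  obtain ⟨u2, B1, hu2, hB1⟩ := exists_denom (O := O) d
  set A0 : MvPolynomial (Fin D) O := C u2 * A1 with hA0
  set B0 : MvPolynomial (Fin D) O := C u1 * B1 with hB0
  set u : O := u1 * u2 with hu
  have hune : u ≠ 0 := mul_ne_zero hu1 hu2
  have mA0 : map (algebraMap O k1) A0 =
      C (algebraMap O k1 u) * (c * map (algebraMap O k1) F) := by
    rw [hA0, map_mul, map_C, hA1, hu, map_mul, C_mul]
    ring
  have mB0 : map (algebraMap O k1) B0 = C (algebraMap O k1 u) * d := by
    rw [hB0, map_mul, map_C, hB1, hu, map_mul, C_mul]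
    ring
  have hB0ne : B0 ≠ 0 := by
    intro h
    rw [h, map_zero] at mB0
    have h2 : (C (algebraMap O k1 u) : MvPolynomial (Fin D) k1) ≠ 0 := by
      rw [Ne, C_eq_zero]
      intro h3
      exact hune ((map_eq_zero_iff _ hinjOk).mp h3)
    exact mul_ne_zero h2 hd mB0.symm
  have e5 : A0 ^ q = B0 ^ q * (C t * N') := by
    apply hinjm
    rw [map_pow, mA0, map_mul (map (algebraMap O k1)) (B0 ^ q), map_pow, mB0, mul_pow, e4]
    ring
  have hprime : Prime (C t : MvPolynomial (Fin D) O) := (prime_C_iff (Fin D)).mpr ht.prime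
  obtain ⟨s, B, hBt, hBs⟩ := WfDvdMonoid.max_power_factor hB0ne hprime.irreducible
  have hAs : (C t : MvPolynomial (Fin D) O) ^ s ∣ A0 := by
    rw [← IsIntegrallyClosed.pow_dvd_pow_iff hq0.ne', e5, hBs, mul_pow]
    exact Dvd.intro _ (by ring : _ * (B ^ q * (C t * N')) = _)
  obtain ⟨A, hA⟩ := hAs
  have hts : (C t : MvPolynomial (Fin D) O) ^ s ≠ 0 := pow_ne_zero _ hprime.ne_zero
  have e6 : A ^ q = B ^ q * (C t * N') := by
    have h1 : ((C t : MvPolynomial (Fin D) O) ^ s) ^ q ≠ 0 := pow_ne_zero _ hts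
    apply mul_left_cancel₀ h1
    rw [← mul_pow, ← hA, e5, hBs]
    ring
  have hAt : (C t : MvPolynomial (Fin D) O) ∣ A := by
    apply hprime.dvd_of_dvd_pow (n := q)
    rw [e6]
    exact ⟨B ^ q * N', by ring⟩
  obtain ⟨A', hA'⟩ := hAt
  have hFt : ¬ (C t : MvPolynomial (Fin D) O) ∣ F := by
    intro h
    obtain ⟨b, hb⟩ := hF
    exact hb ((C_dvd_iff_dvd_coeff t F).mp h b)
  have hFB : ¬ (C t : MvPolynomial (Fin D) O) ∣ F * B := by
    intro h
    rcases hprime.dvd_or_dvd h with h | h
    · exact hFt h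
    · exact hBt h
  refine ⟨F * B, A', ?_, ?_⟩
  · by_contra hcon
    push Not at hcon
    exact hFB ((C_dvd_iff_dvd_coeff t _).mpr hcon)
  · rw [← hA']
    have h1 : aeval ψ ((C t : MvPolynomial (Fin D) O) ^ s) ≠ 0 := by
      rw [hmapO]
      intro h2
      apply hts
      apply hinjm
      rw [map_zero]
      apply halg
      rw [h2, map_zero]
    apply mul_left_cancel₀ h1
    have h3 : aeval ψ ((C t : MvPolynomial (Fin D) O) ^ s) * aeval ψ A = aeval ψ A0 := by
      rw [hA, map_mul]
    have h4 : aeval ψ ((C t : MvPolynomial (Fin D) O) ^ s) * aeval ψ B = aeval ψ B0 := by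
      rw [hBs, map_mul]
    have h5 : aeval ψ B0 = algebraMap k1 L1 (algebraMap O k1 u) * aeval ψ d := by
      rw [hmapO, mB0, map_mul, aeval_C]
    have h6 : aeval ψ A0 = algebraMap k1 L1 (algebraMap O k1 u) * (aeval ψ c * aeval ψ F) := by
      rw [hmapO A0, mA0, map_mul (aeval ψ), aeval_C, map_mul (aeval ψ) c, ← hmapO F]
    rw [h3, h6, ← e1, map_mul]
    calc aeval ψ ((C t : MvPolynomial (Fin D) O) ^ s) * (φ' σ * (aeval ψ F * aeval ψ B)) =
        (aeval ψ ((C t : MvPolynomial (Fin D) O) ^ s) * aeval ψ B) * (φ' σ * aeval ψ F) := by ring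
      _ = _ := by
        rw [h4, h5]
        ring

end Pool.Agent.Y781.GS
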