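import Pool.Agent.Y234.GS.StmC

/-!
# Project GS, job DESC0, part 1: certificates of formal smoothness
-/

set_option autoImplicit false

namespace Pool.Agent.Y781.GS

open MvPolynomial

section cert

variable {S : Type} [CommRing S] {σ α : Type} [Fintype α]

/-- A certificate of formal smoothness of `S[Z] / (f)`. -/
def Cert (f : α → MvPolynomial σ S) : Prop :=
  ∃ (g : σ → α → MvPolynomial σ S) (h : α → α → α → MvPolynomial σ S),
    ∀ a, bind₁ (fun v => X v + ∑ b, g v b * f b) (f a) = ∑ b, ∑ c, h a b c * (f b * f c)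

lemma span_sq (f : α → MvPolynomial σ S) (P : MvPolynomial σ S)
    (hP : P ∈ Ideal.span (Set.range f) ^ 2) :
    ∃ h : α → α → MvPolynomial σ S, P = ∑ b, ∑ c, h b c * (f b * f c) := by
  have h1 : Ideal.span (Set.range f) ^ 2 =
      Ideal.span (Set.range (fun p : α × α => f p.1 * f p.2)) := by
    rw [pow_two, Ideal.span_mul_span']
    congr 1
    ext z
    constructor
    · rintro ⟨_, ⟨a, rfl⟩, _, ⟨b, rfl⟩, rfl⟩
      exact ⟨(a, b), rfl⟩
    · rintro ⟨⟨a, b⟩, rfl⟩
      exact ⟨_, ⟨a, rfl⟩, _, ⟨b, rfl⟩, rfl⟩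
  rw [h1, Ideal.mem_span_range_iff_exists_fun] at hP
  obtain ⟨c, hc⟩ := hP
  refine ⟨fun a b => c (a, b), ?_⟩
  rw [← hc, Fintype.sum_prod_type]

theorem cert_of_smooth {B : Type} [CommRing B] [Algebra S B] (Φ : MvPolynomial σ S →ₐ[S] B)
    (hs : Function.Surjective Φ) (f : α → MvPolynomial σ S)
    (hk : ∀ P, Φ P = 0 ↔ P ∈ Ideal.span (Set.range f))
    (hsm : Algebra.FormallySmooth S B) : Cert f := by
  classical
  have hker : RingHom.ker Φ.toRingHom = Ideal.span (Set.range f) := by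
    ext P
    exact hk P
  obtain ⟨τ, hτ⟩ := (Algebra.FormallySmooth.iff_split_surjection Φ hs).mp hsm
  have h1 : ∀ v, ∃ P, Ideal.Quotient.mk (RingHom.ker Φ.toRingHom ^ 2) P = τ (Φ (X v)) :=
    fun v => Ideal.Quotient.mk_surjective _
  choose L hL using h1
  have h2 : ∀ v, L v - X v ∈ Ideal.span (Set.range f) := by
    intro v
    rw [← hk, map_sub, sub_eq_zero, ← AlgHom.kerSquareLift_mk, hL]
    exact DFunLike.congr_fun hτ (Φ (X v))
  have h3 : ∀ v, ∃ g : α → MvPolynomial σ S, ∑ b, g b * f b = L v - X v := fun v =>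
    Ideal.mem_span_range_iff_exists_fun.mp (h2 v)
  choose g hg using h3
  have hLg : L = fun v => X v + ∑ b, g v b * f b := by
    funext v
    rw [hg]
    ring
  have h4 : (Ideal.Quotient.mkₐ S (RingHom.ker Φ.toRingHom ^ 2)).comp
      (bind₁ L : MvPolynomial σ S →ₐ[S] MvPolynomial σ S) = τ.comp Φ := by
    apply MvPolynomial.algHom_ext
    intro v
    rw [AlgHom.comp_apply, AlgHom.comp_apply, bind₁_X_right]
    exact hL v
  have h5 : ∀ a, ∃ h : α → α → MvPolynomial σ S,
      bind₁ L (f a) = ∑ b, ∑ c, h b c * (f b * f c) := by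
    intro a
    apply span_sq
    rw [← hker, ← Ideal.Quotient.eq_zero_iff_mem]
    have h6 := DFunLike.congr_fun h4 (f a)
    rw [AlgHom.comp_apply, AlgHom.comp_apply,
      (hk (f a)).mpr (Ideal.subset_span (Set.mem_range_self a)), map_zero] at h6
    exact h6
  choose h hh using h5
  refine ⟨g, h, fun a => ?_⟩
  rw [← hh a, hLg]

theorem smooth_of_cert {B : Type} [CommRing B] [Algebra S B] (Φ : MvPolynomial σ S →ₐ[S] B)
    (hs : Function.Surjective Φ) (f : α → MvPolynomial σ S)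
    (hk : ∀ P, Φ P = 0 ↔ P ∈ Ideal.span (Set.range f)) (hc : Cert f) :
    Algebra.FormallySmooth S B := by
  classical
  obtain ⟨g, h, hgh⟩ := hc
  have hker : RingHom.ker Φ.toRingHom = Ideal.span (Set.range f) := by
    ext P
    exact hk P
  have hker2 : RingHom.ker Φ = Ideal.span (Set.range f) := by
    ext P
    exact hk P
  set L : σ → MvPolynomial σ S := fun v => X v + ∑ b, g v b * f b with hL
  set θ : MvPolynomial σ S →ₐ[S] MvPolynomial σ S ⧸ RingHom.ker Φ.toRingHom ^ 2 :=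
    (Ideal.Quotient.mkₐ S (RingHom.ker Φ.toRingHom ^ 2)).comp
      (bind₁ L : MvPolynomial σ S →ₐ[S] MvPolynomial σ S) with hθ
  have hθ0 : ∀ P ∈ RingHom.ker Φ, θ P = 0 := by
    intro P hP
    rw [hker2] at hP
    have h1 : Ideal.span (Set.range f) ≤ RingHom.ker θ := by
      rw [Ideal.span_le]
      rintro _ ⟨a, rfl⟩
      rw [SetLike.mem_coe, RingHom.mem_ker, hθ, AlgHom.comp_apply, hgh a, Ideal.Quotient.mkₐ_eq_mk,
        Ideal.Quotient.eq_zero_iff_mem, hker, pow_two]
      refine Ideal.sum_mem _ fun b _ => Ideal.sum_mem _ fun c _ => Ideal.mul_mem_left _ _ ?_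
      exact Ideal.mul_mem_mul (Ideal.subset_span (Set.mem_range_self b))
        (Ideal.subset_span (Set.mem_range_self c))
    exact h1 hP
  set e : (MvPolynomial σ S ⧸ RingHom.ker Φ) ≃ₐ[S] B := Ideal.quotientKerAlgEquivOfSurjective hs
    with he
  have hesymm : ∀ P, e.symm (Φ P) = Ideal.Quotient.mk (RingHom.ker Φ) P := by
    intro P
    rw [AlgEquiv.symm_apply_eq]
    rfl
  set τ : B →ₐ[S] MvPolynomial σ S ⧸ RingHom.ker Φ.toRingHom ^ 2 :=
    (Ideal.Quotient.liftₐ (RingHom.ker Φ) θ hθ0).comp e.symm.toAlgHom with hτ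
  have hτΦ : ∀ P, τ (Φ P) = θ P := by
    intro P
    rw [hτ, AlgHom.comp_apply]
    have : (e.symm.toAlgHom (Φ P)) = Ideal.Quotient.mk (RingHom.ker Φ) P := hesymm P
    rw [this]
    rfl
  have hΦL : Φ.comp (bind₁ L : MvPolynomial σ S →ₐ[S] MvPolynomial σ S) = Φ := by
    apply MvPolynomial.algHom_ext
    intro v
    rw [AlgHom.comp_apply, bind₁_X_right, hL, map_add, add_eq_left, hk]
    exact Ideal.sum_mem _ fun b _ =>
      Ideal.mul_mem_left _ _ (Ideal.subset_span (Set.mem_range_self b))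
  refine Algebra.FormallySmooth.of_split Φ τ ?_
  apply AlgHom.ext
  intro z
  obtain ⟨P, rfl⟩ := hs z
  rw [AlgHom.comp_apply, hτΦ, hθ, AlgHom.comp_apply, Ideal.Quotient.mkₐ_eq_mk,
    AlgHom.kerSquareLift_mk]
  exact DFunLike.congr_fun hΦL P

lemma Cert.map {T : Type} [CommRing T] (φ : S →+* T) {f : α → MvPolynomial σ S} (hc : Cert f) :
    Cert (fun a => MvPolynomial.map φ (f a)) := by
  obtain ⟨g, h, hgh⟩ := hc
  refine ⟨fun v b => MvPolynomial.map φ (g v b), fun a b c => MvPolynomial.map φ (h a b c),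
    fun a => ?_⟩
  have h1 := congrArg (MvPolynomial.map φ) (hgh a)
  rw [map_bind₁] at h1
  simp only [map_add, map_sum, map_mul, map_X] at h1
  exact h1

lemma Cert.descend {T : Type} [CommRing T] (φ : S →+* T) (hφ : Function.Injective φ)
    {f : α → MvPolynomial σ S} (g : σ → α → MvPolynomial σ S)
    (h : α → α → α → MvPolynomial σ S)
    (hgh : ∀ a, bind₁ (fun v => X v + ∑ b, MvPolynomial.map φ (g v b) * MvPolynomial.map φ (f b))
      (MvPolynomial.map φ (f a)) =
      ∑ b, ∑ c, MvPolynomial.map φ (h a b c) * (MvPolynomial.map φ (f b) * MvPolynomial.map φ (f c))) :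
    Cert f := by
  refine ⟨g, h, fun a => ?_⟩
  apply MvPolynomial.map_injective φ hφ
  rw [map_bind₁]
  simp only [map_add, map_sum, map_mul, map_X]
  exact hgh a

end cert

/-! ## Reduction modulo `p` -/

theorem jac_int : IsJacobsonRing ℤ := by
  rw [isJacobsonRing_iff_prime_eq]
  intro P hP
  by_cases h : P = ⊥
  · subst h
    rw [eq_bot_iff]
    intro x hx
    rw [Ideal.mem_jacobson_bot] at hx
    have h1 := hx x
    rw [Int.isUnit_iff] at h1
    rw [Ideal.mem_bot]
    rcases h1 with h1 | h1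
    · have : x * x = 0 := by linarith
      exact mul_self_eq_zero.1 this
    · exfalso
      nlinarith [mul_self_nonneg x]
  · have : P.IsMaximal := IsPrime.to_maximal_ideal h
    exact Ideal.jacobson_eq_self_of_isMaximal

theorem exists_hom (R : Type) [CommRing R] [Nontrivial R] (hft : Algebra.FiniteType ℤ R) :
    ∃ (p : ℕ) (k : Type) (_ : Field k) (_ : IsAlgClosed k) (_ : R →+* k), p.Prime ∧ CharP k p := by
  obtain ⟨m, hm⟩ := Ideal.exists_maximal R
  let _ : Field (R ⧸ m) := Ideal.Quotient.field m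
  have hft2 : Algebra.FiniteType ℤ (R ⧸ m) :=
    hft.of_surjective (Ideal.Quotient.mkₐ ℤ m) Ideal.Quotient.mk_surjective
  have hJ : IsJacobsonRing ℤ := jac_int
  have hfin : Module.Finite ℤ (R ⧸ m) := finite_of_finite_type_of_isJacobsonRing ℤ (R ⧸ m)
  obtain ⟨p, hp⟩ := CharP.exists (R ⧸ m)
  have hp0 : p ≠ 0 := by
    rintro rfl
    have hz : CharZero (R ⧸ m) := CharP.charP_to_charZero _
    have hint : Algebra.IsIntegral ℤ (R ⧸ m) := inferInstance
    have hinj : Function.Injective (algebraMap ℤ (R ⧸ m)) := Int.cast_injective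
    have := isField_of_isIntegral_of_isField hinj (Field.toIsField (R ⧸ m))
    exact Int.not_isField this
  have hpp : p.Prime := (CharP.char_is_prime_or_zero (R ⧸ m) p).resolve_right hp0
  refine ⟨p, AlgebraicClosure (R ⧸ m), inferInstance, inferInstance,
    (algebraMap (R ⧸ m) (AlgebraicClosure (R ⧸ m))).comp (Ideal.Quotient.mk m), hpp, ?_⟩
  exact charP_of_injective_algebraMap (algebraMap (R ⧸ m) (AlgebraicClosure (R ⧸ m))).injective p

end Pool.Agent.Y781.GS
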