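import Pool.Agent.Y781.GS.NF
import Pool.Agent.Y781.GS.Cert

/-!
# Project GS, job DESC0: reduction modulo `p` of smooth Groebner data
-/

set_option autoImplicit false

namespace Pool.Agent.Y781.GS

open MvPolynomial Pool.Agent.Y234.GS

variable {ι : Type} [Fintype ι]

/-! ## Existence of the normal form data -/

lemma uniq {K A : Type} [Field K] [CommRing A] [Algebra K A] {x : ι → A} {w : ι → ℕ}
    {Δ : Finset (Finset ι)} (hG : Grob K x w Δ) (d : ℕ) (P : MvPolynomial ι K)
    (hP : P ∈ Sp K (fun s => deg s = d ∧ supp s ∈ Δ)) (h0 : aeval x P = 0) : P = 0 := by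
  classical
  have hLI := hG.indep d
  rw [linearIndependent_iff'] at hLI
  set e : {s // s ∈ P.support} → {b : ι → ℕ // deg b = d ∧ supp b ∈ Δ} :=
    fun s => ⟨⇑s.1, hP s.1 (mem_support_iff.mp s.2)⟩ with he
  have einj : Function.Injective e := by
    intro s t hst
    apply Subtype.ext
    apply DFunLike.coe_injective
    exact congrArg Subtype.val hst
  have h1 : ∑ b ∈ P.support.attach.map ⟨e, einj⟩,
      coeff (Finsupp.equivFunOnFinite.symm b.1) P • mon x b.1 = 0 := by
    rw [Finset.sum_map, ← h0]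
    conv_rhs => rw [as_sum P, map_sum, ← Finset.sum_attach]
    refine Finset.sum_congr rfl fun s _ => ?_
    have h2 : (monomial s.1 (coeff s.1 P) : MvPolynomial ι K) =
        coeff s.1 P • monomial s.1 1 := by
      rw [smul_monomial, smul_eq_mul, mul_one]
    rw [h2, map_smul, mon_eq]
    congr 2
    ext i
    rfl
  have h2 := hLI _ _ h1
  by_contra hne
  obtain ⟨s, hs⟩ := ne_zero_iff.mp hne
  have hs' : s ∈ P.support := mem_support_iff.mpr hs
  have h3 := h2 (e ⟨s, hs'⟩) (by
    rw [Finset.mem_map]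
    exact ⟨⟨s, hs'⟩, Finset.mem_attach _ _, rfl⟩)
  apply hs
  rw [← h3]
  congr 1
  ext i
  rfl

theorem exists_n {K A R : Type} [Field K] [CommRing A] [Algebra K A] [CommRing R] [Algebra R K]
    [Algebra R A] [IsScalarTower R K A] (hj : Function.Injective (algebraMap R K))
    {x : ι → A} {w : ι → ℕ} {Δ : Finset (Finset ι)} (hG : Grob K x w Δ)
    (g : Finset ι → MvPolynomial ι R)
    (hg : ∀ F ∉ Δ, g F ∈ Sp R (fun s => deg s = deg (ind F) ∧ supp s ∈ Δ ∧ wt w s < wt w (ind F)))
    (hg2 : ∀ F ∉ Δ, aeval x (g F) = mon x (ind F)) :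
    ∃ n : (ι →₀ ℕ) → MvPolynomial ι R, NFD R w Δ g n ∧ ∀ b, aeval x (n b) = mon x b := by
  classical
  have key : ∀ N : ℕ, ∀ b : ι →₀ ℕ, wt w b < N → ∃ P : MvPolynomial ι R,
      (supp b ∈ Δ → P = monomial b 1) ∧
      (supp b ∉ Δ → P ∈ Sp R (fun s => deg s = deg b ∧ supp s ∈ Δ ∧ wt w s < wt w b)) ∧
      aeval x P = mon x b := by
    intro N
    induction N with
    | zero =>
      intro b hb
      omega
    | succ N ih =>
      intro b hb
      by_cases hs : supp b ∈ Δ
      · exact ⟨monomial b 1, fun _ => rfl, fun h => absurd hs h, mon_eq x b⟩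
      · set F := supp b with hF
        set m := b - ind F with hm
        have hb2 : m + ind F = b := sub_ind_add b
        set pick : (ι →₀ ℕ) → MvPolynomial ι R :=
          fun b' => if h : wt w b' < N then (ih b' h).choose else 0 with hpick
        have hpick2 : ∀ b' : ι →₀ ℕ, wt w b' < N → (supp b' ∈ Δ → pick b' = monomial b' 1) ∧
            (supp b' ∉ Δ →
              pick b' ∈ Sp R (fun s => deg s = deg b' ∧ supp s ∈ Δ ∧ wt w s < wt w b')) ∧
            aeval x (pick b') = mon x b' := by
          intro b' hb'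
          have := (ih b' hb').choose_spec
          simp only [hpick, dif_pos hb']
          exact this
        have hwt : ∀ s : ι →₀ ℕ, wt w s < wt w (ind F) → wt w ⇑(m + s) < wt w b := by
          intro s hs
          have h5 : wt w b = wt w m + wt w (ind F) := by
            rw [← wt_coe_add, hb2]
          rw [wt_coe_add]
          omega
        have hdeg : ∀ s : ι →₀ ℕ, deg s = deg (ind F) → deg ⇑(m + s) = deg b := by
          intro s hs
          rw [deg_coe_add, hs, ← deg_coe_add, hb2]
        refine ⟨NF (fun s => pick (m + s)) (g F), fun h => absurd h hs, fun _ => ?_, ?_⟩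
        · refine Sp_ind _ _ ?_ (hg F hs)
          intro s hs2
          have h6 := hwt s hs2.2.2
          have h7 := hdeg s hs2.1
          have h8 := hpick2 (m + s) (lt_of_lt_of_le h6 (Nat.lt_succ_iff.mp hb))
          rw [NF_monomial]
          by_cases h9 : supp ⇑(m + s) ∈ Δ
          · rw [h8.1 h9]
            exact monomial_mem_Sp _ ⟨h7, h9, h6⟩
          · refine Sp_mono ?_ (h8.2.1 h9)
            rintro s' ⟨h10, h11, h12⟩
            exact ⟨h10.trans h7, h11, h12.trans h6⟩
        · have h3 : ((aeval x).toLinearMap.comp (NF (fun s => pick (m + s))) -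
              (aeval x).toLinearMap.comp (LinearMap.mulLeft R (monomial m 1))) (g F) ∈
              (⊥ : Submodule R A) := by
            refine Sp_ind _ _ ?_ (hg F hs)
            intro s hs2
            have h6 := hwt s hs2.2.2
            have h8 := hpick2 (m + s) (lt_of_lt_of_le h6 (Nat.lt_succ_iff.mp hb))
            rw [Submodule.mem_bot, LinearMap.sub_apply, LinearMap.comp_apply,
              LinearMap.comp_apply, NF_monomial, LinearMap.mulLeft_apply, monomial_mul, mul_one,
              AlgHom.toLinearMap_apply, AlgHom.toLinearMap_apply, h8.2.2, mon_eq, sub_self]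
          rw [Submodule.mem_bot, LinearMap.sub_apply, LinearMap.comp_apply,
            LinearMap.comp_apply, LinearMap.mulLeft_apply, AlgHom.toLinearMap_apply,
            AlgHom.toLinearMap_apply, sub_eq_zero, map_mul, hg2 F hs, ← mon_eq (S := R) x (ind F),
            ← map_mul, monomial_mul, mul_one, hb2, mon_eq] at h3
          exact h3
  have key2 : ∀ b : ι →₀ ℕ, ∃ P : MvPolynomial ι R,
      (supp b ∈ Δ → P = monomial b 1) ∧
      (supp b ∉ Δ → P ∈ Sp R (fun s => deg s = deg b ∧ supp s ∈ Δ ∧ wt w s < wt w b)) ∧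
      aeval x P = mon x b := fun b => key (wt w b + 1) b (Nat.lt_succ_self _)
  choose n hn1 hn2 hn3 using key2
  have hS : ∀ b : ι →₀ ℕ, n b ∈ Sp R (fun s => deg s = deg b ∧ supp s ∈ Δ) := by
    intro b
    by_cases hb : supp b ∈ Δ
    · rw [hn1 b hb]
      exact monomial_mem_Sp _ ⟨rfl, hb⟩
    · exact Sp_mono (fun s hs => ⟨hs.1, hs.2.1⟩) (hn2 b hb)
  have hev : ∀ P : MvPolynomial ι R, aeval x (NF n P) = aeval x P := by
    intro P
    have h3 : ((aeval x).toLinearMap.comp (NF n) - (aeval x).toLinearMap :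
        MvPolynomial ι R →ₗ[R] A) P ∈ (⊥ : Submodule R A) := by
      refine Sp_ind (T := fun _ => True) _ _ ?_ (fun _ _ => trivial)
      intro s _
      rw [Submodule.mem_bot, LinearMap.sub_apply, LinearMap.comp_apply, NF_monomial,
        AlgHom.toLinearMap_apply, AlgHom.toLinearMap_apply, hn3, mon_eq, sub_self]
    rw [Submodule.mem_bot, LinearMap.sub_apply, LinearMap.comp_apply,
      AlgHom.toLinearMap_apply, AlgHom.toLinearMap_apply, sub_eq_zero] at h3
    exact h3
  refine ⟨n, ⟨hg, hn2, hn1, fun m F hF => ?_⟩, hn3⟩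
  have hdegm : ∀ s : ι →₀ ℕ, deg s = deg (ind F) → deg ⇑(m + s) = deg m + deg (ind F) := by
    intro s hs
    rw [deg_coe_add, hs]
  have hP : monomial m 1 * (monomial (ind F) 1 - g F) ∈
      Sp R (fun s => deg s = deg m + deg (ind F)) := by
    rw [mul_sub, monomial_mul, mul_one]
    refine sub_mem (monomial_mem_Sp _ (hdegm _ rfl)) ?_
    have h3 : LinearMap.mulLeft R (monomial m 1) (g F) ∈
        Sp R (fun s : ι →₀ ℕ => deg s = deg m + deg (ind F)) := by
      refine Sp_ind _ _ ?_ (hg F hF)
      intro s hs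
      rw [LinearMap.mulLeft_apply, monomial_mul, mul_one]
      exact monomial_mem_Sp _ (hdegm s hs.1)
    exact h3
  have hQ : NF n (monomial m 1 * (monomial (ind F) 1 - g F)) ∈
      Sp R (fun s => deg s = deg m + deg (ind F) ∧ supp s ∈ Δ) := by
    refine Sp_ind _ _ ?_ hP
    intro s hs
    rw [NF_monomial]
    refine Sp_mono ?_ (hS s)
    rintro s' ⟨h1, h2⟩
    exact ⟨h1.trans hs, h2⟩
  apply MvPolynomial.map_injective _ hj
  rw [map_zero]
  refine uniq hG _ _ (map_mem_Sp _ hQ) ?_
  rw [aeval_map_algebraMap, hev, map_mul, map_sub, mon_eq, hg2 F hF, mon_eq, sub_self, mul_zero]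

/-- The reductions over the field. -/
lemma exists_g {K A : Type} [Field K] [CommRing A] [Algebra K A] {x : ι → A} {w : ι → ℕ}
    {Δ : Finset (Finset ι)} (hG : Grob K x w Δ) (F : Finset ι) (hF : F ∉ Δ) :
    ∃ g : MvPolynomial ι K,
      g ∈ Sp K (fun s => deg s = deg (ind F) ∧ supp s ∈ Δ ∧ wt w s < wt w (ind F)) ∧
      aeval x g = mon x (ind F) := by
  have h1 := hG.red (ind F) (by rw [supp_ind]; exact hF)
  have h2 : Submodule.span K {a : A | ∃ b' : ι → ℕ, deg b' = deg (ind F) ∧ supp b' ∈ Δ ∧
      wt w b' < wt w (ind F) ∧ a = mon x b'} ≤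
      (Sp K (fun s => deg s = deg (ind F) ∧ supp s ∈ Δ ∧ wt w s < wt w (ind F))).map
        (aeval x).toLinearMap := by
    rw [Submodule.span_le]
    rintro _ ⟨b', h3, h4, h5, rfl⟩
    exact ⟨monomial (Finsupp.equivFunOnFinite.symm b') 1, monomial_mem_Sp _ ⟨h3, h4, h5⟩,
      mon_eq' x b'⟩
  obtain ⟨g, hg1, hg2⟩ := h2 h1
  exact ⟨g, hg1, hg2⟩

/-- The ideal of all relations. -/
lemma ker_eq {K A : Type} [Field K] [CommRing A] [Algebra K A] {x : ι → A} {w : ι → ℕ}
    {Δ : Finset (Finset ι)} (hR : RMod K x) (hG : Grob K x w Δ) {g : Finset ι → MvPolynomial ι K}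
    {n : (ι →₀ ℕ) → MvPolynomial ι K} (hn : NFD K w Δ g n)
    (hg2 : ∀ F ∉ Δ, aeval x (g F) = mon x (ind F)) (hn3 : ∀ b, aeval x (n b) = mon x b)
    (P : MvPolynomial ι K) : aeval x P = 0 ↔ P ∈ JJ Δ g := by
  classical
  have hev : ∀ P : MvPolynomial ι K, aeval x (NF n P) = aeval x P := by
    intro P
    have h3 : ((aeval x).toLinearMap.comp (NF n) - (aeval x).toLinearMap :
        MvPolynomial ι K →ₗ[K] A) P ∈ (⊥ : Submodule K A) := by
      refine Sp_ind (T := fun _ => True) _ _ ?_ (fun _ _ => trivial)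
      intro s _
      rw [Submodule.mem_bot, LinearMap.sub_apply, LinearMap.comp_apply, NF_monomial,
        AlgHom.toLinearMap_apply, AlgHom.toLinearMap_apply, hn3, mon_eq, sub_self]
    rw [Submodule.mem_bot, LinearMap.sub_apply, LinearMap.comp_apply,
      AlgHom.toLinearMap_apply, AlgHom.toLinearMap_apply, sub_eq_zero] at h3
    exact h3
  constructor
  · intro hP
    rw [hn.mem_iff]
    have h1 : ∀ d, homogeneousComponent d (NF n P) = 0 := by
      intro d
      rw [← hn.hc]
      refine uniq hG d _ ?_ ?_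
      · have h2 : homogeneousComponent d P ∈ Sp K (fun s : ι →₀ ℕ => deg s = d) := by
          intro s hs
          rw [coeff_homogeneousComponent, degree_eq] at hs
          by_contra h3
          rw [if_neg h3] at hs
          exact hs rfl
        refine Sp_ind _ _ ?_ h2
        intro s hs
        rw [NF_monomial]
        refine Sp_mono ?_ (hn.hs s)
        rintro s' ⟨h4, h5⟩
        exact ⟨h4.trans hs, h5⟩
      · rw [hev]
        exact hR.hom P hP d
    rw [← sum_homogeneousComponent (NF n P)]
    exact Finset.sum_eq_zero fun d _ => h1 d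
  · intro hP
    have h1 : JJ Δ g ≤ RingHom.ker (aeval x : MvPolynomial ι K →ₐ[K] A) := by
      rw [JJ, Ideal.span_le]
      rintro _ ⟨F, rfl⟩
      rw [SetLike.mem_coe, RingHom.mem_ker, map_sub, mon_eq, hg2 F.1 F.2, sub_self]
    exact h1 hP

/-! ## Charts -/

section chart

variable {S : Type} [CommRing S]

/-- Generators of the ideal of a chart. -/
noncomputable def fch (Δ : Finset (Finset ι)) (g : Finset ι → MvPolynomial ι S) (i : ι) :
    Option {F : Finset ι // F ∉ Δ} → MvPolynomial (Option ι) S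
  | none => X none * X (some i) - 1
  | some F => rename some (monomial (ind F.1) 1 - g F.1)

lemma map_fch {T : Type} [CommRing T] (φ : S →+* T) (Δ : Finset (Finset ι))
    (g : Finset ι → MvPolynomial ι S) (i : ι) (a : Option {F : Finset ι // F ∉ Δ}) :
    map φ (fch Δ g i a) = fch Δ (fun F => map φ (g F)) i a := by
  cases a with
  | none => simp [fch]
  | some F =>
    rw [fch, fch, map_rename, map_sub, map_monomial, map_one]

/-- The map onto the chart. -/
noncomputable def Phi {A : Type} [CommRing A] [Algebra S A] (x : ι → A) (i : ι) :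
    MvPolynomial (Option ι) S →ₐ[S] Localization.Away (x i) :=
  aeval (fun o => o.elim (IsLocalization.Away.invSelf (x i))
    (fun j => algebraMap A (Localization.Away (x i)) (x j)))

omit [Fintype ι] in
lemma Phi_none {A : Type} [CommRing A] [Algebra S A] (x : ι → A) (i : ι) :
    Phi (S := S) x i (X none) = IsLocalization.Away.invSelf (x i) := by
  rw [Phi, aeval_X]
  rfl

omit [Fintype ι] in
lemma Phi_rename {A : Type} [CommRing A] [Algebra S A] (x : ι → A) (i : ι)
    (G : MvPolynomial ι S) :
    Phi (S := S) x i (rename some G) = algebraMap A (Localization.Away (x i)) (aeval x G) := by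
  have h : (Phi (S := S) x i).comp (rename some) =
      (IsScalarTower.toAlgHom S A (Localization.Away (x i))).comp (aeval x) := by
    apply MvPolynomial.algHom_ext
    intro j
    rw [AlgHom.comp_apply, AlgHom.comp_apply, rename_X, aeval_X, Phi, aeval_X]
    rfl
  exact DFunLike.congr_fun h G

omit [Fintype ι] in
lemma Phi_surj {A : Type} [CommRing A] [Algebra S A] (x : ι → A) (i : ι)
    (gen : Algebra.adjoin S (Set.range x) = ⊤) : Function.Surjective (Phi (S := S) x i) := by
  intro z
  obtain ⟨n, a, ha⟩ := IsLocalization.Away.surj (x i) z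
  rw [Algebra.adjoin_range_eq_range_aeval] at gen
  obtain ⟨G, hG⟩ : ∃ G, aeval x G = a := by
    have : a ∈ (aeval x : MvPolynomial ι S →ₐ[S] A).range := by
      rw [gen]
      trivial
    exact this
  refine ⟨rename some G * X none ^ n, ?_⟩
  rw [map_mul, map_pow, Phi_rename, Phi_none, hG, ← ha, mul_assoc, ← mul_pow,
    IsLocalization.Away.mul_invSelf, one_pow, mul_one]

lemma Phi_ker {A : Type} [CommRing A] [Algebra S A] (x : ι → A) (i : ι)
    (Δ : Finset (Finset ι)) (g : Finset ι → MvPolynomial ι S)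
    (hk : ∀ P : MvPolynomial ι S, aeval x P = 0 ↔ P ∈ JJ Δ g) (P : MvPolynomial (Option ι) S) :
    Phi (S := S) x i P = 0 ↔ P ∈ Ideal.span (Set.range (fch Δ g i)) := by
  set J := Ideal.span (Set.range (fch Δ g i)) with hJ
  have hJ0 : X none * X (some i) - 1 ∈ J := Ideal.subset_span ⟨none, rfl⟩
  have hJ1 : ∀ G ∈ JJ Δ g, rename some G ∈ J := by
    intro G hG
    have h1 : JJ Δ g ≤ J.comap (rename some : MvPolynomial ι S →ₐ[S] MvPolynomial (Option ι) S) := by
      rw [JJ, Ideal.span_le]
      rintro _ ⟨F, rfl⟩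
      rw [SetLike.mem_coe, Ideal.mem_comap]
      exact Ideal.subset_span ⟨some F, rfl⟩
    exact h1 hG
  constructor
  · intro hP
    have key : ∀ P : MvPolynomial (Option ι) S, ∃ (n : ℕ) (G : MvPolynomial ι S),
        X (some i) ^ n * P - rename some G ∈ J := by
      intro P
      induction P using MvPolynomial.induction_on with
      | C a => exact ⟨0, C a, by rw [pow_zero, one_mul, rename_C, sub_self]; exact zero_mem _⟩
      | add P Q hP hQ =>
        obtain ⟨n1, G1, h1⟩ := hP
        obtain ⟨n2, G2, h2⟩ := hQ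
        refine ⟨n1 + n2, X i ^ n2 * G1 + X i ^ n1 * G2, ?_⟩
        have e : X (some i) ^ (n1 + n2) * (P + Q) -
            rename some (X i ^ n2 * G1 + X i ^ n1 * G2) =
            X (some i) ^ n2 * (X (some i) ^ n1 * P - rename some G1) +
            X (some i) ^ n1 * (X (some i) ^ n2 * Q - rename some G2) := by
          rw [map_add, map_mul, map_mul, map_pow, map_pow, rename_X]
          ring
        rw [e]
        exact add_mem (Ideal.mul_mem_left _ _ h1) (Ideal.mul_mem_left _ _ h2)
      | mul_X P o hP =>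
        obtain ⟨n, G, h⟩ := hP
        cases o with
        | none =>
          refine ⟨n + 1, G, ?_⟩
          have e : X (some i) ^ (n + 1) * (P * X none) - rename some G =
              (X (some i) ^ n * P) * (X none * X (some i) - 1) +
              (X (some i) ^ n * P - rename some G) := by ring
          rw [e]
          exact add_mem (Ideal.mul_mem_left _ _ hJ0) h
        | some j =>
          refine ⟨n, G * X j, ?_⟩
          have e : X (some i) ^ n * (P * X (some j)) - rename some (G * X j) =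
              X (some j) * (X (some i) ^ n * P - rename some G) := by
            rw [map_mul, rename_X]
            ring
          rw [e]
          exact Ideal.mul_mem_left _ _ h
    have hJPhi : ∀ Q ∈ J, Phi (S := S) x i Q = 0 := by
      intro Q hQ
      have h1 : J ≤ RingHom.ker (Phi (S := S) x i) := by
        rw [hJ, Ideal.span_le]
        rintro _ ⟨a, rfl⟩
        rw [SetLike.mem_coe, RingHom.mem_ker]
        cases a with
        | none =>
          have h2 : (X (some i) : MvPolynomial (Option ι) S) = rename some (X i) := by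
            rw [rename_X]
          rw [fch, map_sub, map_mul, map_one, Phi_none, h2, Phi_rename, aeval_X, mul_comm,
            IsLocalization.Away.mul_invSelf, sub_self]
        | some F =>
          rw [fch, Phi_rename, (hk _).mpr (gen_mem_JJ F.2), map_zero]
      exact h1 hQ
    obtain ⟨n, G, hG⟩ := key P
    have h1 := hJPhi _ hG
    rw [map_sub, map_mul, hP, mul_zero, zero_sub, neg_eq_zero, Phi_rename] at h1
    rw [← map_zero (algebraMap A (Localization.Away (x i)))] at h1
    obtain ⟨m, hm⟩ := IsLocalization.Away.exists_of_eq (x i) h1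
    have h2 : X i ^ m * G ∈ JJ Δ g := by
      rw [← hk, map_mul, map_pow, aeval_X, hm, mul_zero]
    have h3 := hJ1 _ h2
    have h4 : (X (some i) : MvPolynomial (Option ι) S) ^ (m + n) * P ∈ J := by
      have e : (X (some i) : MvPolynomial (Option ι) S) ^ (m + n) * P =
          X (some i) ^ m * (X (some i) ^ n * P - rename some G) + rename some (X i ^ m * G) := by
        rw [map_mul, map_pow, rename_X]
        ring
      rw [e]
      exact add_mem (Ideal.mul_mem_left _ _ hG) h3
    have h5 : (X none * X (some i) : MvPolynomial (Option ι) S) ^ (m + n) - 1 ∈ J := by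
      have h6 := sub_dvd_pow_sub_pow (X none * X (some i) : MvPolynomial (Option ι) S) 1 (m + n)
      rw [one_pow] at h6
      obtain ⟨c, hc⟩ := h6
      rw [hc]
      exact Ideal.mul_mem_right _ _ hJ0
    have e : P = X none ^ (m + n) * (X (some i) ^ (m + n) * P) -
        P * ((X none * X (some i)) ^ (m + n) - 1) := by
      rw [mul_pow]
      ring
    rw [e]
    exact sub_mem (Ideal.mul_mem_left _ _ h4) (Ideal.mul_mem_left _ _ h5)
  · intro hP
    have h1 : J ≤ RingHom.ker (Phi (S := S) x i) := by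
      rw [hJ, Ideal.span_le]
      rintro _ ⟨a, rfl⟩
      rw [SetLike.mem_coe, RingHom.mem_ker]
      cases a with
      | none =>
        have h2 : (X (some i) : MvPolynomial (Option ι) S) = rename some (X i) := by
          rw [rename_X]
        rw [fch, map_sub, map_mul, map_one, Phi_none, h2, Phi_rename, aeval_X, mul_comm,
          IsLocalization.Away.mul_invSelf, sub_self]
      | some F =>
        rw [fch, Phi_rename, (hk _).mpr (gen_mem_JJ F.2), map_zero]
    exact h1 hP

end chart

/-! ## The theorem -/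

/-- Specialisation of the normal form data and of the certificates. -/
theorem special {R k : Type} [CommRing R] [Field k] (φ : R →+* k) (w : ι → ℕ)
    (Δ : Finset (Finset ι)) (down : ∀ F ∈ Δ, ∀ G : Finset ι, G ⊆ F → G ∈ Δ)
    (sing : ∀ i, {i} ∈ Δ) (winj : Function.Injective w) [Fintype {F : Finset ι // F ∉ Δ}]
    (g : Finset ι → MvPolynomial ι R) (n : (ι →₀ ℕ) → MvPolynomial ι R) (hn : NFD R w Δ g n)
    (hc : ∀ i, Cert (fch Δ g i)) :
    ∃ (A' : Type) (_ : CommRing A') (_ : Algebra k A') (x' : ι → A'),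
      RMod k x' ∧ Grob k x' w Δ ∧ RSmooth k x' := by
  obtain ⟨hR', hG'⟩ := (hn.map φ).rmod_grob down sing winj
  refine ⟨MvPolynomial ι k ⧸ JJ Δ (fun F => map φ (g F)), inferInstance,
    inferInstance, fun i => Ideal.Quotient.mk (JJ Δ (fun F => map φ (g F))) (X i), hR', hG',
    fun i => ?_⟩
  have hck : Cert (fch Δ (fun F => map φ (g F)) i) := by
    have h1 := (hc i).map φ
    have h2 : (fun a => map φ (fch Δ g i a)) = fch Δ (fun F => map φ (g F)) i :=
      funext fun a => map_fch φ Δ g i a
    rw [h2] at h1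
    exact h1
  have hk' : ∀ P : MvPolynomial ι k,
      aeval (fun i => Ideal.Quotient.mk (JJ Δ (fun F => map φ (g F))) (X i)) P = 0 ↔
      P ∈ JJ Δ (fun F => map φ (g F)) := by
    intro P
    rw [aeval_mk, Ideal.Quotient.eq_zero_iff_mem]
  have hsurj := Phi_surj (S := k)
    (fun i => Ideal.Quotient.mk (JJ Δ (fun F => map φ (g F))) (X i)) i hR'.gen
  have hkk := Phi_ker (S := k)
    (fun i => Ideal.Quotient.mk (JJ Δ (fun F => map φ (g F))) (X i)) i Δ _ hk'
  exact ⟨smooth_of_cert _ hsurj _ hkk hck,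
    Algebra.FinitePresentation.of_surjective hsurj (IsNoetherian.noetherian _)⟩

/-- The data over the field. -/
theorem data_K {K A : Type} [Field K] [CommRing A] [Algebra K A] (x : ι → A)
    (w : ι → ℕ) (Δ : Finset (Finset ι)) (hR : RMod K x) (hG : Grob K x w Δ) (hS : RSmooth K x)
    [Fintype {F : Finset ι // F ∉ Δ}] :
    ∃ g : Finset ι → MvPolynomial ι K,
      (∀ F ∉ Δ, g F ∈ Sp K (fun s => deg s = deg (ind F) ∧ supp s ∈ Δ ∧ wt w s < wt w (ind F))) ∧
      (∀ F ∉ Δ, aeval x (g F) = mon x (ind F)) ∧ ∀ i, Cert (fch Δ g i) := by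
  have hg : ∀ F : Finset ι, ∃ g : MvPolynomial ι K, F ∉ Δ →
      g ∈ Sp K (fun s => deg s = deg (ind F) ∧ supp s ∈ Δ ∧ wt w s < wt w (ind F)) ∧
      aeval x g = mon x (ind F) := by
    intro F
    by_cases hF : F ∈ Δ
    · exact ⟨0, fun h => absurd hF h⟩
    · obtain ⟨g, hg⟩ := exists_g hG F hF
      exact ⟨g, fun _ => hg⟩
  choose gK hgK using hg
  obtain ⟨nK, hnK, hnK3⟩ := exists_n (K := K) (A := A) (R := K) (fun a b h => h) hG gK
    (fun F hF => (hgK F hF).1) (fun F hF => (hgK F hF).2)
  have hker := ker_eq hR hG hnK (fun F hF => (hgK F hF).2) hnK3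
  refine ⟨gK, fun F hF => (hgK F hF).1, fun F hF => (hgK F hF).2, fun i => ?_⟩
  exact cert_of_smooth (Phi (S := K) x i) (Phi_surj x i hR.gen) (fch Δ gK i)
    (Phi_ker x i Δ gK hker) (hS i).formallySmooth

/-- Lifting finitely many polynomials to a finitely generated subring. -/
theorem exists_subring {K : Type} [Field K] {β : Type} [Finite β] (σ : β → Type)
    (P : ∀ b, MvPolynomial (σ b) K) : ∃ R : Subalgebra ℤ K, Algebra.FiniteType ℤ R ∧
      ∀ b, ∃ P0 : MvPolynomial (σ b) R, map (algebraMap R K) P0 = P b := by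
  set T : Set K := ⋃ b, ((P b).coeffs : Set K) with hT
  have hTfin : T.Finite := Set.finite_iUnion fun F => Finset.finite_toSet _
  refine ⟨Algebra.adjoin ℤ T, ?_, fun b => ?_⟩
  · rw [← Subalgebra.fg_iff_finiteType]
    exact ⟨hTfin.toFinset, by rw [Set.Finite.coe_toFinset]⟩
  · have h1 : P b ∈ Set.range (MvPolynomial.map (algebraMap (Algebra.adjoin ℤ T) K)) := by
      rw [mem_range_map_iff_coeffs_subset]
      intro c hc
      exact ⟨⟨c, Algebra.subset_adjoin (Set.mem_iUnion.mpr ⟨b, hc⟩)⟩, rfl⟩
    exact h1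

/-- The data over a finitely generated subring. -/
theorem data_R {K : Type} [Field K] (Δ : Finset (Finset ι)) [Fintype {F : Finset ι // F ∉ Δ}]
    (g : Finset ι → MvPolynomial ι K) (hc : ∀ i, Cert (fch Δ g i)) :
    ∃ R : Subalgebra ℤ K, Algebra.FiniteType ℤ R ∧ ∃ g0 : Finset ι → MvPolynomial ι R,
      (∀ F, map (algebraMap R K) (g0 F) = g F) ∧ ∀ i, Cert (fch Δ g0 i) := by
  unfold Cert at hc
  choose Gc Hc hcert using hc
  obtain ⟨R, hft, hlift⟩ := exists_subring (K := K)
    (β := Finset ι ⊕ ((ι × Option ι × Option {F : Finset ι // F ∉ Δ}) ⊕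
      (ι × Option {F : Finset ι // F ∉ Δ} × Option {F : Finset ι // F ∉ Δ} ×
        Option {F : Finset ι // F ∉ Δ})))
    (fun b => b.elim (fun _ => ι) (fun _ => Option ι))
    (fun b => match b with
      | Sum.inl F => g F
      | Sum.inr (Sum.inl q) => Gc q.1 q.2.1 q.2.2
      | Sum.inr (Sum.inr q) => Hc q.1 q.2.1 q.2.2.1 q.2.2.2)
  have lg : ∀ F, ∃ P0 : MvPolynomial ι R, map (algebraMap R K) P0 = g F := fun F =>
    hlift (Sum.inl F)
  have lG : ∀ i v b, ∃ P0 : MvPolynomial (Option ι) R, map (algebraMap R K) P0 = Gc i v b :=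
    fun i v b => hlift (Sum.inr (Sum.inl (i, v, b)))
  have lH : ∀ i a b c, ∃ P0 : MvPolynomial (Option ι) R, map (algebraMap R K) P0 = Hc i a b c :=
    fun i a b c => hlift (Sum.inr (Sum.inr (i, a, b, c)))
  choose gR hgR using lg
  choose GR hGR using lG
  choose HR hHR using lH
  refine ⟨R, hft, gR, hgR, fun i => ?_⟩
  have hinj : Function.Injective (algebraMap R K) := Subtype.val_injective
  have hm : ∀ a, map (algebraMap R K) (fch Δ gR i a) = fch Δ g i a := by
    intro a
    rw [map_fch]
    simp only [hgR]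
  refine Cert.descend (algebraMap R K) hinj (GR i) (HR i) ?_
  intro a
  simp only [hm, hGR, hHR]
  exact hcert i a

theorem desc0_core {K A : Type} [Field K] [CommRing A] [Algebra K A] [CharZero K] (x : ι → A)
    (w : ι → ℕ) (Δ : Finset (Finset ι)) (hR : RMod K x) (hG : Grob K x w Δ) (hS : RSmooth K x) :
    ∃ (p : ℕ) (k : Type) (_ : Field k) (_ : IsAlgClosed k) (A' : Type) (_ : CommRing A')
      (_ : Algebra k A') (x' : ι → A'), p.Prime ∧ CharP k p ∧ RMod k x' ∧ Grob k x' w Δ ∧
      RSmooth k x' := by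
  have _ : Finite {F : Finset ι // F ∉ Δ} := inferInstance
  let _ : Fintype {F : Finset ι // F ∉ Δ} := Fintype.ofFinite _
  obtain ⟨gK, hgK1, hgK2, hcK⟩ := data_K x w Δ hR hG hS
  obtain ⟨R, hft, gR, hgR, hcR⟩ := data_R Δ gK hcK
  have hinj : Function.Injective (algebraMap R K) := Subtype.val_injective
  have hgR1 : ∀ F ∉ Δ, gR F ∈
      Sp R (fun s => deg s = deg (ind F) ∧ supp s ∈ Δ ∧ wt w s < wt w (ind F)) := by
    intro F hF s hs
    apply hgK1 F hF s
    rw [← hgR F, coeff_map]
    intro h
    exact hs ((map_eq_zero_iff _ hinj).mp h)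
  have hgR2 : ∀ F ∉ Δ, aeval x (gR F) = mon x (ind F) := by
    intro F hF
    rw [← aeval_map_algebraMap K, hgR F]
    exact hgK2 F hF
  obtain ⟨nR, hnR, -⟩ := exists_n (K := K) (A := A) (R := R) hinj hG gR hgR1 hgR2
  obtain ⟨p, k, ik, ia, φ, hp, hchar⟩ := exists_hom R hft
  obtain ⟨A', i1, i2, x', h1, h2, h3⟩ :=
    special φ w Δ hG.down hG.sing hG.winj gR nR hnR hcR
  exact ⟨p, k, ik, ia, A', i1, i2, x', hp, hchar, h1, h2, h3⟩

theorem desc0 : S_DESC0 := by
  intro K A ι _ _ _ _ _ _ x w Δ hR hG hS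
  exact desc0_core x w Δ hR hG hS

end Pool.Agent.Y781.GS
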