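import Pool.Agent.Y234.GS.StmC

/-!
# Project GS, job DESC0, part 2: normal forms and their base change
-/

set_option autoImplicit false

namespace Pool.Agent.Y781.GS

open MvPolynomial Pool.Agent.Y234.GS

section sp

variable {ι S : Type} [CommRing S]

/-- Polynomials all of whose exponents satisfy `T`. -/
def Sp (S : Type) [CommRing S] (T : (ι →₀ ℕ) → Prop) : Submodule S (MvPolynomial ι S) where
  carrier := {P | ∀ s, coeff s P ≠ 0 → T s}
  add_mem' := by
    intro a b ha hb s hs
    by_cases h : coeff s a = 0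
    · apply hb
      intro h2
      exact hs (by rw [coeff_add, h, h2, add_zero])
    · exact ha s h
  zero_mem' := by
    intro s hs
    exact absurd (coeff_zero s) hs
  smul_mem' := by
    intro c a ha s hs
    apply ha
    intro h
    apply hs
    rw [coeff_smul, h, smul_zero]

lemma mem_Sp {T : (ι →₀ ℕ) → Prop} {P : MvPolynomial ι S} :
    P ∈ Sp S T ↔ ∀ s, coeff s P ≠ 0 → T s := Iff.rfl

lemma monomial_mem_Sp {T : (ι →₀ ℕ) → Prop} {s : ι →₀ ℕ} (r : S) (h : T s) :
    monomial s r ∈ Sp S T := by
  classical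
  intro s' hs'
  rw [coeff_monomial] at hs'
  by_cases h1 : s = s'
  · rw [← h1]
    exact h
  · rw [if_neg h1] at hs'
    exact absurd rfl hs'

lemma Sp_mono {T T' : (ι →₀ ℕ) → Prop} (h : ∀ s, T s → T' s) : Sp S T ≤ Sp S T' :=
  fun _ hP s hs => h s (hP s hs)

lemma map_mem_Sp {R : Type} [CommRing R] (φ : R →+* S) {T : (ι →₀ ℕ) → Prop}
    {P : MvPolynomial ι R} (h : P ∈ Sp R T) : map φ P ∈ Sp S T := by
  intro s hs
  apply h s
  intro h0
  apply hs
  rw [coeff_map, h0, map_zero]

/-- Induction principle. -/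
lemma Sp_ind {T : (ι →₀ ℕ) → Prop} {M : Type} [AddCommGroup M] [Module S M]
    (N : Submodule S M) (f : MvPolynomial ι S →ₗ[S] M) (h : ∀ s, T s → f (monomial s 1) ∈ N)
    {P : MvPolynomial ι S} (hP : P ∈ Sp S T) : f P ∈ N := by
  rw [as_sum P, map_sum]
  refine Submodule.sum_mem _ fun s hs => ?_
  have h1 : monomial s (coeff s P) = coeff s P • (monomial s (1 : S)) := by
    rw [smul_monomial, smul_eq_mul, mul_one]
  rw [h1, map_smul]
  exact Submodule.smul_mem _ _ (h s (hP s (mem_support_iff.mp hs)))

/-- The linear map given by its values on monomials. -/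
noncomputable def NF (n : (ι →₀ ℕ) → MvPolynomial ι S) :
    MvPolynomial ι S →ₗ[S] MvPolynomial ι S :=
  (basisMonomials ι S).constr S n

lemma NF_monomial (n : (ι →₀ ℕ) → MvPolynomial ι S) (b : ι →₀ ℕ) :
    NF n (monomial b 1) = n b := by
  have h1 : (monomial b 1 : MvPolynomial ι S) = basisMonomials ι S b := by
    rw [coe_basisMonomials]
  rw [h1, NF, Module.Basis.constr_basis]

lemma NF_map {R : Type} [CommRing R] (φ : R →+* S) (n : (ι →₀ ℕ) → MvPolynomial ι R)
    (P : MvPolynomial ι R) : NF (fun b => map φ (n b)) (map φ P) = map φ (NF n P) := by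
  induction P using MvPolynomial.induction_on' with
  | monomial b r =>
    have h1 : (monomial b r : MvPolynomial ι R) = r • monomial b 1 := by
      rw [smul_monomial, smul_eq_mul, mul_one]
    have h2 : map φ (monomial b r : MvPolynomial ι R) = φ r • monomial b 1 := by
      rw [map_monomial, smul_monomial, smul_eq_mul, mul_one]
    rw [h2, h1, map_smul, map_smul, NF_monomial, NF_monomial, smul_eq_C_mul, smul_eq_C_mul, map_mul,
      map_C]
  | add P Q hP hQ => rw [map_add, map_add, map_add, map_add, hP, hQ]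

end sp

variable {ι : Type} [Fintype ι]

/-- The exponent of the squarefree monomial. -/
noncomputable def ind (F : Finset ι) : ι →₀ ℕ := by
  classical
  exact Finsupp.equivFunOnFinite.symm (fun i => if i ∈ F then 1 else 0)

open Classical in
lemma ind_apply (F : Finset ι) (i : ι) : ind F i = if i ∈ F then 1 else 0 := by
  unfold ind
  rfl

lemma supp_ind (F : Finset ι) : supp (ind F) = F := by
  classical
  ext i
  simp only [supp, Finset.mem_filter, Finset.mem_univ, true_and, ind_apply]
  by_cases h : i ∈ F <;> simp [h]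

lemma deg_add (a b : ι →₀ ℕ) : deg (a + b) = deg a + deg b := by
  simp [deg, Finset.sum_add_distrib]

lemma deg_coe_add (a b : ι →₀ ℕ) : deg ⇑(a + b) = deg a + deg b := by
  simp [deg, Finset.sum_add_distrib]

lemma wt_coe_add (w : ι → ℕ) (a b : ι →₀ ℕ) : wt w ⇑(a + b) = wt w a + wt w b := by
  simp [wt, mul_add, Finset.sum_add_distrib]

lemma sub_ind_add (b : ι →₀ ℕ) : b - ind (supp b) + ind (supp b) = b := by
  classical
  ext i
  simp only [Finsupp.coe_add, Finsupp.coe_tsub, Pi.add_apply, Pi.sub_apply, ind_apply, supp,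
    Finset.mem_filter, Finset.mem_univ, true_and]
  split_ifs with h
  · omega
  · omega

/-- Normal form data over a ring. -/
structure NFD (S : Type) [CommRing S] (w : ι → ℕ) (Δ : Finset (Finset ι))
    (g : Finset ι → MvPolynomial ι S) (n : (ι →₀ ℕ) → MvPolynomial ι S) : Prop where
  lowg : ∀ F ∉ Δ, g F ∈ Sp S (fun s => deg s = deg (ind F) ∧ supp s ∈ Δ ∧ wt w s < wt w (ind F))
  low : ∀ b : ι →₀ ℕ, supp b ∉ Δ →
    n b ∈ Sp S (fun s => deg s = deg b ∧ supp s ∈ Δ ∧ wt w s < wt w b)
  std : ∀ b : ι →₀ ℕ, supp b ∈ Δ → n b = monomial b 1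
  rel : ∀ (m : ι →₀ ℕ) (F : Finset ι), F ∉ Δ →
    NF n (monomial m 1 * (monomial (ind F) 1 - g F)) = 0

lemma NFD.map {R S : Type} [CommRing R] [CommRing S] (φ : R →+* S) {w : ι → ℕ}
    {Δ : Finset (Finset ι)} {g : Finset ι → MvPolynomial ι R}
    {n : (ι →₀ ℕ) → MvPolynomial ι R} (h : NFD R w Δ g n) :
    NFD S w Δ (fun F => MvPolynomial.map φ (g F)) (fun b => MvPolynomial.map φ (n b)) where
  lowg := fun F hF => map_mem_Sp φ (h.lowg F hF)
  low := fun b hb => map_mem_Sp φ (h.low b hb)
  std := fun b hb => by rw [h.std b hb, map_monomial, map_one]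
  rel := fun m F hF => by
    have h1 := congrArg (MvPolynomial.map φ) (h.rel m F hF)
    rw [← NF_map, map_mul, map_sub, map_monomial, map_monomial, map_one, map_zero] at h1
    exact h1

/-- The ideal of the relations. -/
noncomputable def JJ {S : Type} [CommRing S] (Δ : Finset (Finset ι)) (g : Finset ι → MvPolynomial ι S) :
    Ideal (MvPolynomial ι S) :=
  Ideal.span (Set.range (fun F : {F : Finset ι // F ∉ Δ} => monomial (ind F.1) 1 - g F.1))

section nfd

variable {S : Type} [CommRing S] {w : ι → ℕ} {Δ : Finset (Finset ι)}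
  {g : Finset ι → MvPolynomial ι S} {n : (ι →₀ ℕ) → MvPolynomial ι S}

lemma gen_mem_JJ {F : Finset ι} (hF : F ∉ Δ) : monomial (ind F) 1 - g F ∈ JJ Δ g :=
  Ideal.subset_span ⟨⟨F, hF⟩, rfl⟩

lemma NFD.zero (h : NFD S w Δ g n) {P : MvPolynomial ι S} (hP : P ∈ JJ Δ g) : NF n P = 0 := by
  classical
  rw [JJ, Ideal.mem_span_range_iff_exists_fun] at hP
  obtain ⟨c, hc⟩ := hP
  rw [← hc, map_sum]
  refine Finset.sum_eq_zero fun F _ => ?_
  have key : ∀ Q : MvPolynomial ι S, NF n (Q * (monomial (ind F.1) 1 - g F.1)) = 0 := by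
    intro Q
    induction Q using MvPolynomial.induction_on' with
    | monomial b r =>
      have h1 : (monomial b r : MvPolynomial ι S) = r • monomial b 1 := by
        rw [smul_monomial, smul_eq_mul, mul_one]
      rw [h1, smul_mul_assoc, map_smul, h.rel b F.1 F.2, smul_zero]
    | add P Q hP hQ => rw [add_mul, map_add, hP, hQ, add_zero]
  exact key _

lemma NFD.sub_mem (h : NFD S w Δ g n) (P : MvPolynomial ι S) : P - NF n P ∈ JJ Δ g := by
  have key : ∀ N : ℕ, ∀ b : ι →₀ ℕ, wt w b < N → monomial b 1 - NF n (monomial b 1) ∈ JJ Δ g := by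
    intro N
    induction N with
    | zero =>
      intro b hb
      omega
    | succ N ih =>
      intro b hb
      by_cases hs : supp b ∈ Δ
      · rw [NF_monomial, h.std b hs, sub_self]
        exact zero_mem _
      · set F := supp b with hF
        set m := b - ind F with hm
        have hb2 : m + ind F = b := sub_ind_add b
        have e1 : (monomial b 1 : MvPolynomial ι S) = monomial m 1 * monomial (ind F) 1 := by
          rw [monomial_mul, hb2, mul_one]
        have e2 : NF n (monomial b 1) = NF n (monomial m 1 * g F) := by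
          have h1 := h.rel m F hs
          rw [mul_sub, ← e1, map_sub, sub_eq_zero] at h1
          exact h1
        have hQ : monomial m 1 * g F - NF n (monomial m 1 * g F) ∈ JJ Δ g := by
          have h3 : ((LinearMap.id - NF n).comp (LinearMap.mulLeft S (monomial m 1))) (g F) ∈
              (JJ Δ g).restrictScalars S := by
            refine Sp_ind (T := fun s => deg s = deg (ind F) ∧ supp s ∈ Δ ∧ wt w s < wt w (ind F))
              _ _ ?_ (h.lowg F hs)
            intro s hs2
            rw [LinearMap.comp_apply, LinearMap.mulLeft_apply, monomial_mul, mul_one,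
              LinearMap.sub_apply, LinearMap.id_apply]
            have h4 : wt w ⇑(m + s) < N := by
              have h5 : wt w b = wt w m + wt w (ind F) := by
                rw [← wt_coe_add, hb2]
              rw [wt_coe_add]
              have := hs2.2.2
              omega
            exact ih (m + s) h4
          exact h3
        rw [e2, e1]
        have e3 : (monomial m 1 * monomial (ind F) 1 - NF n (monomial m 1 * g F) :
            MvPolynomial ι S) = monomial m 1 * (monomial (ind F) 1 - g F) +
            (monomial m 1 * g F - NF n (monomial m 1 * g F)) := by ring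
        rw [e3]
        exact add_mem (Ideal.mul_mem_left _ _ (gen_mem_JJ hs)) hQ
  have h3 : (LinearMap.id - NF n : MvPolynomial ι S →ₗ[S] MvPolynomial ι S) P ∈
      (JJ Δ g).restrictScalars S := by
    refine Sp_ind (T := fun _ => True) _ _ ?_ (fun _ _ => trivial)
    intro s _
    exact key (wt w s + 1) s (Nat.lt_succ_self _)
  exact h3

lemma NFD.mem_iff (h : NFD S w Δ g n) (P : MvPolynomial ι S) : P ∈ JJ Δ g ↔ NF n P = 0 := by
  refine ⟨fun hP => h.zero hP, fun hP => ?_⟩
  have := h.sub_mem P
  rwa [hP, sub_zero] at this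

/-- the exponents of the normal form of a monomial -/
lemma NFD.hs (h : NFD S w Δ g n) (b : ι →₀ ℕ) :
    n b ∈ Sp S (fun s => deg s = deg b ∧ supp s ∈ Δ) := by
  by_cases hb : supp b ∈ Δ
  · rw [h.std b hb]
    exact monomial_mem_Sp _ ⟨rfl, hb⟩
  · exact Sp_mono (fun s hs => ⟨hs.1, hs.2.1⟩) (h.low b hb)

lemma degree_eq (s : ι →₀ ℕ) : s.degree = deg s := by
  rw [Finsupp.degree_eq_sum]
  rfl

lemma hc_of_Sp (d e : ℕ) (P : MvPolynomial ι S) (hP : P ∈ Sp S (fun s => deg s = e)) :
    homogeneousComponent d P = if e = d then P else 0 := by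
  classical
  ext s
  rw [coeff_homogeneousComponent, degree_eq]
  by_cases h0 : coeff s P = 0
  · split_ifs <;> simp [h0]
  · rw [hP s h0]
    split_ifs <;> simp

lemma NFD.hc (h : NFD S w Δ g n) (d : ℕ) (P : MvPolynomial ι S) :
    NF n (homogeneousComponent d P) = homogeneousComponent d (NF n P) := by
  have h3 : ((NF n).comp (homogeneousComponent d) - (homogeneousComponent d).comp (NF n)) P ∈
      (⊥ : Submodule S (MvPolynomial ι S)) := by
    refine Sp_ind (T := fun _ => True) _ _ ?_ (fun _ _ => trivial)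
    intro b _
    rw [Submodule.mem_bot, LinearMap.sub_apply, LinearMap.comp_apply, LinearMap.comp_apply,
      NF_monomial, hc_of_Sp d (deg b) (monomial b 1) (monomial_mem_Sp _ rfl),
      hc_of_Sp d (deg b) (n b) (Sp_mono (fun s hs => hs.1) (h.hs b))]
    split_ifs
    · rw [NF_monomial, sub_self]
    · rw [map_zero, sub_self]
  rw [Submodule.mem_bot, LinearMap.sub_apply, sub_eq_zero] at h3
  exact h3

omit [Fintype ι] in
lemma aeval_mk (I : Ideal (MvPolynomial ι S)) (P : MvPolynomial ι S) :
    aeval (fun i => Ideal.Quotient.mk I (X i)) P = Ideal.Quotient.mk I P := by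
  have : (aeval (fun i => Ideal.Quotient.mk I (X i)) :
      MvPolynomial ι S →ₐ[S] MvPolynomial ι S ⧸ I) = Ideal.Quotient.mkₐ S I := by
    apply MvPolynomial.algHom_ext
    intro i
    rw [aeval_X]
    rfl
  rw [this]
  rfl

lemma mon_eq {A : Type} [CommRing A] [Algebra S A] (x : ι → A) (s : ι →₀ ℕ) :
    aeval x (monomial s (1 : S)) = mon x s := by
  rw [aeval_monomial, map_one, one_mul, mon, Finsupp.prod_fintype]
  intro i
  rw [pow_zero]

lemma mon_eq' {A : Type} [CommRing A] [Algebra S A] (x : ι → A) (b : ι → ℕ) :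
    aeval x (monomial (Finsupp.equivFunOnFinite.symm b) (1 : S)) = mon x b := by
  rw [mon_eq]
  rfl

end nfd

/-- The quotient by the relations. -/
theorem NFD.rmod_grob {k : Type} [Field k] {w : ι → ℕ} {Δ : Finset (Finset ι)}
    {g : Finset ι → MvPolynomial ι k} {n : (ι →₀ ℕ) → MvPolynomial ι k} (h : NFD k w Δ g n)
    (down : ∀ F ∈ Δ, ∀ G : Finset ι, G ⊆ F → G ∈ Δ) (sing : ∀ i, {i} ∈ Δ)
    (winj : Function.Injective w) :
    RMod k (fun i => Ideal.Quotient.mk (JJ Δ g) (X i)) ∧
      Grob k (fun i => Ideal.Quotient.mk (JJ Δ g) (X i)) w Δ := by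
  classical
  constructor
  · refine ⟨?_, ?_⟩
    · intro G hG d
      rw [aeval_mk, Ideal.Quotient.eq_zero_iff_mem, h.mem_iff] at hG ⊢
      rw [h.hc, hG, map_zero]
    · rw [Algebra.adjoin_range_eq_range_aeval, eq_top_iff]
      intro z _
      obtain ⟨P, rfl⟩ := Ideal.Quotient.mk_surjective z
      exact ⟨P, aeval_mk _ P⟩
  · refine ⟨down, sing, winj, ?_, ?_⟩
    · intro m
      rw [linearIndependent_iff']
      intro s c hc b hb
      set P : MvPolynomial ι k := ∑ b ∈ s, c b • monomial (Finsupp.equivFunOnFinite.symm b.1) 1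
        with hP
      have h1 : aeval (fun i => Ideal.Quotient.mk (JJ Δ g) (X i)) P = 0 := by
        rw [hP, map_sum, ← hc]
        refine Finset.sum_congr rfl fun b _ => ?_
        rw [map_smul, mon_eq']
      rw [aeval_mk, Ideal.Quotient.eq_zero_iff_mem, h.mem_iff, hP, map_sum] at h1
      have h2 : P = 0 := by
        rw [hP, ← h1]
        refine Finset.sum_congr rfl fun b _ => ?_
        rw [map_smul, NF_monomial, h.std]
        exact b.2.2
      have h3 := congrArg (coeff (Finsupp.equivFunOnFinite.symm b.1)) h2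
      rw [hP, coeff_sum, coeff_zero, Finset.sum_eq_single b] at h3
      · rw [coeff_smul, coeff_monomial, if_pos rfl, smul_eq_mul, mul_one] at h3
        exact h3
      · intro b' _ hne
        rw [coeff_smul, coeff_monomial, if_neg, smul_zero]
        intro h4
        apply hne
        apply Subtype.ext
        exact Finsupp.equivFunOnFinite.symm.injective h4
      · intro h5
        exact absurd hb h5
    · intro b hb
      have hb' : supp ⇑(Finsupp.equivFunOnFinite.symm b) ∉ Δ := hb
      have h1 := h.sub_mem (monomial (Finsupp.equivFunOnFinite.symm b) 1)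
      rw [NF_monomial, ← Ideal.Quotient.eq_zero_iff_mem, map_sub, sub_eq_zero, ← aeval_mk,
        mon_eq', ← aeval_mk] at h1
      rw [h1]
      refine Sp_ind (S := k) (M := MvPolynomial ι k ⧸ JJ Δ g)
        (T := fun s => deg s = deg (Finsupp.equivFunOnFinite.symm b : ι →₀ ℕ) ∧
          supp s ∈ Δ ∧ wt w s < wt w (Finsupp.equivFunOnFinite.symm b : ι →₀ ℕ)) _
        (aeval (fun i => Ideal.Quotient.mk (JJ Δ g) (X i))).toLinearMap ?_ (h.low _ hb')
      intro s hs
      rw [AlgHom.toLinearMap_apply, mon_eq]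
      exact Submodule.subset_span ⟨s, hs.1, hs.2.1, hs.2.2, rfl⟩

end Pool.Agent.Y781.GS
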